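import Pool.Agent.Q81.JN.Stm

set_option autoImplicit false

open Complex Metric Set

namespace Pool.Agent.Q265.JN

open Pool.Agent.Q81.JN

/-- real part of `1 + B z` on the disc is positive -/
theorem re_pos (A B : ℝ) (h : Par A B) (z : ℂ) (hz : z ∈ ball (0 : ℂ) 1) :
    0 < (1 + (B : ℂ) * z).re := by
  have hz1 : ‖z‖ < 1 := by simpa using hz
  have h1 := Complex.abs_re_le_norm z
  have h2 := h.hB
  have h3 := h.hAB
  have h4 := h.hA
  simp only [add_re, one_re, mul_re, ofReal_re, ofReal_im, zero_mul, sub_zero]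
  have h5 := abs_le.1 h1
  have hB1 : |B| ≤ 1 := by rw [abs_le]; constructor <;> linarith
  have h6 : |B * z.re| ≤ ‖z‖ := by
    rw [abs_mul]
    calc |B| * |z.re| ≤ 1 * ‖z‖ := mul_le_mul hB1 h1 (abs_nonneg _) zero_le_one
      _ = ‖z‖ := one_mul _
  have h7 := (abs_le.1 h6).1
  linarith

theorem slit (A B : ℝ) (h : Par A B) (z : ℂ) (hz : z ∈ ball (0 : ℂ) 1) :
    (1 + (B : ℂ) * z) ∈ slitPlane := Or.inl (re_pos A B h z hz)

theorem ne0 (A B : ℝ) (h : Par A B) (z : ℂ) (hz : z ∈ ball (0 : ℂ) 1) :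
    (1 + (B : ℂ) * z) ≠ 0 := by
  intro h0
  have := re_pos A B h z hz
  rw [h0] at this
  simp at this

/-- the derivative `k'` -/
noncomputable def kd (A B : ℝ) (z : ℂ) : ℂ :=
  if B = 0 then Complex.exp ((A : ℂ) * z)
  else Complex.exp ((((A - B) / B : ℝ) : ℂ) * Complex.log (1 + (B : ℂ) * z))

theorem kd_ne (A B : ℝ) (z : ℂ) : kd A B z ≠ 0 := by
  unfold kd
  split_ifs
  · exact Complex.exp_ne_zero _
  · exact Complex.exp_ne_zero _

theorem kd_deriv (A B : ℝ) (h : Par A B) (z : ℂ) (hz : z ∈ ball (0 : ℂ) 1) :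
    HasDerivAt (kd A B) (((A : ℂ) - (B : ℂ)) / (1 + (B : ℂ) * z) * kd A B z) z := by
  by_cases hB : B = 0
  · have e : kd A B = fun z => Complex.exp ((A : ℂ) * z) := by
      funext w; simp [kd, hB]
    rw [e]
    have h1 : HasDerivAt (fun w : ℂ => (A : ℂ) * w) (A : ℂ) z := by
      simpa using (hasDerivAt_id z).const_mul (A : ℂ)
    have h2 := h1.cexp
    refine h2.congr_deriv ?_
    simp [hB]
    ring
  · have e : kd A B = fun z => Complex.exp ((((A - B) / B : ℝ) : ℂ) *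
        Complex.log (1 + (B : ℂ) * z)) := by
      funext w; simp [kd, hB]
    rw [e]
    have h1 : HasDerivAt (fun w : ℂ => 1 + (B : ℂ) * w) (B : ℂ) z := by
      simpa using ((hasDerivAt_id z).const_mul (B : ℂ)).const_add 1
    have h2 := (h1.clog (slit A B h z hz)).const_mul (((A - B) / B : ℝ) : ℂ)
    have h3 := h2.cexp
    refine h3.congr_deriv ?_
    have hn := ne0 A B h z hz
    have hBc : (B : ℂ) ≠ 0 := by exact_mod_cast hB
    push_cast
    field_simp

theorem kd_zero (A B : ℝ) : kd A B 0 = 1 := by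
  unfold kd
  split_ifs <;> simp

theorem kd_neg (A B : ℝ) (h : Par A B) (r : ℝ) (hr : r ∈ Ico (0 : ℝ) 1) :
    kd A B (-(r : ℂ)) = (mm A B r : ℂ) := by
  unfold kd mm
  by_cases hB : B = 0
  · simp [hB]
  · rw [if_neg hB, if_neg hB]
    have h1 : (1 + (B : ℂ) * (-(r : ℂ))) = ((1 - B * r : ℝ) : ℂ) := by push_cast; ring
    have hz : (-(r : ℂ)) ∈ ball (0 : ℂ) 1 := by
      simp [abs_of_nonneg hr.1, hr.2]
    have hp := re_pos A B h _ hz
    rw [h1] at hp ⊢
    rw [ofReal_re] at hp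
    rw [← Complex.ofReal_log hp.le, Real.rpow_def_of_pos hp]
    push_cast
    ring_nf

/-- the inequality for the real part -/
theorem qre_ineq (A B : ℝ) (h : Par A B) (z : ℂ) (hz : z ∈ ball (0 : ℂ) 1) :
    tau A B ‖z‖ ≤ 1 + (((A : ℂ) - (B : ℂ)) * z / (1 + (B : ℂ) * z)).re := by
  have hz1 : ‖z‖ < 1 := by simpa using hz
  have h0 := norm_nonneg z
  have hp := re_pos A B h z hz
  have hns : 0 < normSq (1 + (B : ℂ) * z) := normSq_pos.2 (ne0 A B h z hz)
  have h2 := h.hB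
  have h3 := h.hAB
  have h4 := h.hA
  have hBr : 0 < 1 - B * ‖z‖ := by nlinarith
  have hsq : z.re * z.re + z.im * z.im = ‖z‖ * ‖z‖ := by
    have := Complex.sq_norm z
    rw [normSq_apply] at this
    nlinarith
  have hre : (((A : ℂ) - (B : ℂ)) * z / (1 + (B : ℂ) * z)).re =
      (A - B) * (z.re + B * (‖z‖ * ‖z‖)) / normSq (1 + (B : ℂ) * z) := by
    rw [Complex.div_re, ← hsq]
    simp only [add_re, one_re, mul_re, ofReal_re, ofReal_im, zero_mul, sub_zero, sub_re, sub_im,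
      add_im, one_im, mul_im, zero_add, add_zero, sub_self]
    rw [← add_div]
    congr 1
    ring
  have hN : normSq (1 + (B : ℂ) * z) = 1 + 2 * B * z.re + B ^ 2 * (‖z‖ * ‖z‖) := by
    rw [← hsq, normSq_apply]
    simp only [add_re, one_re, mul_re, ofReal_re, ofReal_im, zero_mul, sub_zero,
      add_im, one_im, mul_im, zero_add, add_zero]
    ring
  rw [hre]
  have htau : tau A B ‖z‖ = 1 - (A - B) * ‖z‖ / (1 - B * ‖z‖) := by
    unfold tau
    rw [eq_sub_iff_add_eq, ← add_div, div_eq_one_iff_eq hBr.ne']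
    ring
  rw [htau]
  have key : -(‖z‖ / (1 - B * ‖z‖)) ≤
      (z.re + B * (‖z‖ * ‖z‖)) / normSq (1 + (B : ℂ) * z) := by
    rw [← neg_div, div_le_div_iff₀ hBr hns, hN]
    have h5 := (abs_le.1 (Complex.abs_re_le_norm z)).1
    have h6 : 0 ≤ z.re + ‖z‖ := by linarith
    have h9 : 0 < 1 + B * ‖z‖ := by nlinarith
    have h7 : 0 ≤ (1 - B * ‖z‖) * (1 + B * ‖z‖) := mul_nonneg hBr.le h9.le
    nlinarith [mul_nonneg h6 h7]
  have hAB : 0 < A - B := by linarith
  have h8 := mul_le_mul_of_nonneg_left key hAB.le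
  have e1 : (A - B) * ‖z‖ / (1 - B * ‖z‖) = (A - B) * (‖z‖ / (1 - B * ‖z‖)) := by ring
  have e2 : (A - B) * (z.re + B * (‖z‖ * ‖z‖)) / normSq (1 + (B : ℂ) * z) =
    (A - B) * ((z.re + B * (‖z‖ * ‖z‖)) / normSq (1 + (B : ℂ) * z)) := by ring
  rw [e1, e2]
  linarith

theorem ek : S_EK := by
  intro A B h
  have hd : DifferentiableOn ℂ (kd A B) (ball 0 1) := fun z hz =>
    (kd_deriv A B h z hz).differentiableAt.differentiableWithinAt
  obtain ⟨k0, hk0⟩ := hd.isExactOn_ball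
  let k : ℂ → ℂ := fun z => k0 z - k0 0
  have hk : ∀ z ∈ ball (0 : ℂ) 1, HasDerivAt k (kd A B z) z := fun z hz =>
    (hk0 z hz).sub_const _
  have hdk : ∀ z ∈ ball (0 : ℂ) 1, deriv k z = kd A B z := fun z hz => (hk z hz).deriv
  have hddk : ∀ z ∈ ball (0 : ℂ) 1, deriv (deriv k) z =
      ((A : ℂ) - (B : ℂ)) / (1 + (B : ℂ) * z) * kd A B z := by
    intro z hz
    have he : deriv k =ᶠ[nhds z] kd A B := by
      filter_upwards [isOpen_ball.mem_nhds hz] with w hw
      exact hdk w hw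
    rw [he.deriv_eq]
    exact (kd_deriv A B h z hz).deriv
  have h0 : (0 : ℂ) ∈ ball (0 : ℂ) 1 := by simp
  refine ⟨k, fun z => ((A : ℂ) - (B : ℂ)) * z / (1 + (B : ℂ) * z), ?_, ?_, ?_⟩
  · refine ⟨h, ⟨?_, ?_, ?_⟩, ?_, ?_, ?_, ?_⟩
    · intro z hz
      exact (hk z hz).differentiableAt.differentiableWithinAt
    · simp [k]
    · rw [hdk 0 h0, kd_zero]
    · intro z hz
      rw [hdk z hz]
      exact kd_ne A B z
    · intro z hz
      have hn := ne0 A B h z hz
      apply DifferentiableAt.differentiableWithinAt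
      apply DifferentiableAt.div
      · fun_prop
      · fun_prop
      · exact hn
    · intro z hz
      rw [hddk z hz, hdk z hz]
      ring
    · intro z hz
      exact qre_ineq A B h z hz
  · refine ⟨fun z => z, differentiableOn_id, fun z hz => hz, rfl, ?_⟩
    intro z hz
    have hn := ne0 A B h z hz
    have hkn := kd_ne A B z
    show 1 + z * deriv (deriv k) z / deriv k z = (1 + (A : ℂ) * z) / (1 + (B : ℂ) * z)
    rw [hddk z hz, hdk z hz]
    have e : z * (((A : ℂ) - (B : ℂ)) / (1 + (B : ℂ) * z) * kd A B z) / kd A B z =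
        z * ((A : ℂ) - (B : ℂ)) / (1 + (B : ℂ) * z) := by
      rw [div_eq_iff hkn]
      ring
    rw [e, eq_div_iff hn, add_mul, div_mul_cancel₀ _ hn]
    ring
  · intro r hr
    have hz : (-(r : ℂ)) ∈ ball (0 : ℂ) 1 := by
      simp [abs_of_nonneg hr.1, hr.2]
    rw [hdk _ hz, kd_neg A B h r hr]

end Pool.Agent.Q265.JN
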